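import Pool.Agent.SZG.StmtsY

/-!
# SZG row AS2: assembly of the theorem for all torsion points
-/

set_option autoImplicit false

namespace Pool.Agent.SZG.H29

open scoped BigOperators
open Pool.Agent.THS

theorem lN_nonneg {K : Type} [Field K] [NumberField K] (v : NumberField.FinitePlace K) :
    0 ≤ lN v := by
  unfold lN
  exact Real.log_natCast_nonneg _

theorem gam_one {g : ℕ} (τ : Matrix (Fin g) (Fin g) ℂ) (z : Fin g → ℂ) (l : ℕ) (k : ℤ) :
    gam τ z l ((k, 0, 0) : Idx g) = fun i => (k : ℂ) * z i := by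
  funext r
  simp [gam]

theorem gam_mul {g : ℕ} (τ : Matrix (Fin g) (Fin g) ℂ) (z : Fin g → ℂ) (l c : ℕ) (k : ℤ)
    (p q : Fin g → ℤ) :
    gam τ (fun i => (c : ℂ) * z i) l ((k, p, q) : Idx g)
      = gam τ z l (((c : ℤ) * k, p, q) : Idx g) := by
  funext r
  simp only [gam]
  push_cast
  ring

theorem as2 (hSzg : SzgStatement) (hNor : NorStmt) (hHlb : HlbStmt) (hSlc : SlcStmt) :
    As2Stmt := by
  classical
  intro g σ
  obtain ⟨n, hn⟩ := hSzg g (2 * max σ 0)
  have hσ0 : 0 ≤ max σ 0 := le_max_right _ _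
  refine ⟨n, fun l hl hodd => ?_⟩
  obtain ⟨E1, hE1⟩ := exists_nat_ge (2 * (2 * (l : ℝ) ^ (2 * g) * max σ 0 + 1))
  have hE0pos : 0 < E1 + 1 := Nat.succ_pos _
  have hE0 : 2 * (2 * (l : ℝ) ^ (2 * g) * max σ 0 + 1) ≤ ((E1 + 1 : ℕ) : ℝ) := by
    push_cast
    linarith
  generalize E1 + 1 = E0 at hE0pos hE0
  refine ⟨E0.factorial, Nat.factorial_pos _, fun d => ?_⟩
  obtain ⟨B1, hB1⟩ := hn l hl hodd d
  obtain ⟨B2, hB2⟩ := hNor g d (Real.exp (max σ 0 * ((l : ℝ) ^ (2 * g) *
    ((2 * g + 1) * d * Real.log 2))))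
  refine ⟨max (E0.factorial * B1) B2, ?_⟩
  intro K _ _ hd φ τ hτ z hz x hx0 hx S ev m hS hH
  have hlog2 : 0 < Real.log 2 := Real.log_pos (by norm_num)
  have hlp : (0 : ℝ) ≤ (l : ℝ) ^ (2 * g) := by positivity
  have hdR : (Module.finrank ℚ K : ℝ) ≤ d := by exact_mod_cast hd
  have hCd : (l : ℝ) ^ (2 * g) * ((2 * g + 1) * Module.finrank ℚ K * Real.log 2) ≤
      (l : ℝ) ^ (2 * g) * ((2 * g + 1) * d * Real.log 2) := by
    refine mul_le_mul_of_nonneg_left ?_ hlp
    refine mul_le_mul_of_nonneg_right ?_ hlog2.le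
    exact mul_le_mul_of_nonneg_left hdR (by positivity)
  have hΛ0 : 0 ≤ ∑ v ∈ S, (ev v : ℝ) / (m v : ℝ) * lN v :=
    Finset.sum_nonneg fun v _ => mul_nonneg (by positivity) (lN_nonneg v)
  have hH' : Real.log (Height.mulHeight (x 0)) ≤
      max σ 0 * ∑ v ∈ S, (ev v : ℝ) / (m v : ℝ) * lN v :=
    hH.trans (mul_le_mul_of_nonneg_right (le_max_left _ _) hΛ0)
  have hpos : 0 < Height.mulHeight (x 0) := Height.mulHeight_pos _
  rcases le_or_gt (∑ v ∈ S, (ev v : ℝ) / (m v : ℝ) * lN v)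
    ((l : ℝ) ^ (2 * g) * ((2 * g + 1) * d * Real.log 2)) with hle | hgt
  · left
    obtain ⟨M, hM1, hM2, hM3⟩ := hB2 K hd φ τ hτ z hz (fun k => x (k, 0, 0))
      (fun k => hx0 _) (fun k => by
        obtain ⟨μ, hμ⟩ := hx (k, 0, 0)
        refine ⟨μ, fun ab => ?_⟩
        rw [hμ ab, gam_one]) (by
        have h1 : Real.log (Height.mulHeight (x 0)) ≤ max σ 0 * ((l : ℝ) ^ (2 * g) *
            ((2 * g + 1) * d * Real.log 2)) :=
          hH'.trans (mul_le_mul_of_nonneg_left hle hσ0)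
        have h2 := (Real.log_le_iff_le_exp hpos).1 h1
        exact h2)
    exact ⟨M, hM1, hM2.trans (le_max_right _ _), hM3⟩
  · have hl0 : 0 < l := hl.pos
    have hhlb := hHlb g K φ τ hτ z l hl0 x hx0 hx S ev (fun v hv => by
      obtain ⟨_, _, _, _, p, q, hpq, hTC⟩ := hS v hv
      refine ⟨p, q, hpq, ?_⟩
      have := hTC 1
      rwa [one_smul] at this)
    have hsel : ∑ v ∈ S, (ev v : ℝ) * lN v ≤
        (E0 : ℝ) / 2 * ∑ v ∈ S, (ev v : ℝ) / (m v : ℝ) * lN v := by
      have h1 : (l : ℝ) ^ (2 * g) * (2 * Real.log (Height.mulHeight (x 0)) +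
          (2 * g + 1) * Module.finrank ℚ K * Real.log 2) ≤
          (l : ℝ) ^ (2 * g) * (2 * (max σ 0 * ∑ v ∈ S, (ev v : ℝ) / (m v : ℝ) * lN v)) +
          (l : ℝ) ^ (2 * g) * ((2 * g + 1) * d * Real.log 2) := by
        rw [mul_add]
        refine add_le_add (mul_le_mul_of_nonneg_left (by linarith) hlp) hCd
      have h2 : (2 * (l : ℝ) ^ (2 * g) * max σ 0 + 1) *
          ∑ v ∈ S, (ev v : ℝ) / (m v : ℝ) * lN v ≤
          (E0 : ℝ) / 2 * ∑ v ∈ S, (ev v : ℝ) / (m v : ℝ) * lN v :=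
        mul_le_mul_of_nonneg_right (by linarith) hΛ0
      nlinarith [hhlb, h1, h2, hgt]
    have hslc := hSlc (NumberField.FinitePlace K) S ev m lN E0 hE0pos
      (fun v _ => lN_nonneg v) (fun v hv => (hS v hv).2.2.1) hsel
    have hz' : ∃ N : ℕ, 0 < N ∧ InLat τ (fun i => (N : ℂ) * ((E0.factorial : ℂ) * z i)) := by
      obtain ⟨N, hN, p, q, hpq⟩ := hz
      refine ⟨N, hN, fun i => (E0.factorial : ℤ) * p i, fun i => (E0.factorial : ℤ) * q i,
        fun i => ?_⟩
      have h1 : (N : ℂ) * z i = (p i : ℂ) + ∑ j, τ i j * (q j : ℂ) := hpq i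
      show (N : ℂ) * ((E0.factorial : ℂ) * z i) = (((E0.factorial : ℤ) * p i : ℤ) : ℂ) +
        ∑ j, τ i j * (((E0.factorial : ℤ) * q j : ℤ) : ℂ)
      have h2 : (N : ℂ) * ((E0.factorial : ℂ) * z i) =
          (E0.factorial : ℂ) * ((N : ℂ) * z i) := by ring
      rw [h2, h1, mul_add, Finset.mul_sum]
      push_cast
      congr 1
      refine Finset.sum_congr rfl fun j _ => ?_
      ring
    have happ := hB1 K hd φ τ hτ (fun i => (E0.factorial : ℂ) * z i) hz'
      (fun i => x ((E0.factorial : ℤ) * i.1, i.2.1, i.2.2)) (fun i => hx0 _)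
      (fun i => by
        obtain ⟨μ, hμ⟩ := hx ((E0.factorial : ℤ) * i.1, i.2.1, i.2.2)
        refine ⟨μ, fun ab => ?_⟩
        rw [hμ ab, ← gam_mul])
      (S.filter (fun v => m v ≤ E0)) ev (fun v hv => by
        rw [Finset.mem_filter] at hv
        obtain ⟨hvS, hmE⟩ := hv
        obtain ⟨h2, hev, hm1, hCM, p, q, hpq, hTC⟩ := hS v hvS
        refine ⟨h2, hev, fun k => ?_, p, q, hpq, fun u => ?_⟩
        · obtain ⟨t, ht⟩ := Nat.dvd_factorial hm1 hmE
          have h3 := hCM ((t : ℤ) * k)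
          have h4 : (m v : ℤ) * ((t : ℤ) * k) = (E0.factorial : ℤ) * k := by
            rw [ht]
            push_cast
            ring
          rw [h4] at h3
          have h5 : (((E0.factorial : ℤ) * (0 : Idx g).1, (0 : Idx g).2.1, (0 : Idx g).2.2) :
              Idx g) = 0 := by
            ext <;> simp
          simp only [h5]
          exact h3
        · have h3 := hTC u
          have h5 : (((E0.factorial : ℤ) * (0 : Idx g).1, (0 : Idx g).2.1, (0 : Idx g).2.2) :
              Idx g) = 0 := by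
            ext <;> simp
          have h6 : (((E0.factorial : ℤ) * (u • ((0, p, q) : Idx g)).1,
              (u • ((0, p, q) : Idx g)).2.1, (u • ((0, p, q) : Idx g)).2.2) : Idx g) =
              u • ((0, p, q) : Idx g) := by
            ext <;> simp
          simp only [h5, h6]
          exact h3)
      (by
        have h5 : (((E0.factorial : ℤ) * (0 : Idx g).1, (0 : Idx g).2.1, (0 : Idx g).2.2) :
            Idx g) = 0 := by
          ext <;> simp
        simp only [h5]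
        calc Real.log (Height.mulHeight (x 0)) ≤
            max σ 0 * ∑ v ∈ S, (ev v : ℝ) / (m v : ℝ) * lN v := hH'
          _ ≤ max σ 0 * (2 * ∑ v ∈ S.filter (fun v => m v ≤ E0), (ev v : ℝ) * lN v) :=
            mul_le_mul_of_nonneg_left hslc hσ0
          _ = 2 * max σ 0 * ∑ v ∈ S.filter (fun v => m v ≤ E0), (ev v : ℝ) * lN v := by ring)
    rcases happ with ⟨M, hM1, hM2, hM3⟩ | hF
    · left
      refine ⟨M * E0.factorial, Nat.mul_pos hM1 (Nat.factorial_pos _), ?_, ?_⟩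
      · calc M * E0.factorial ≤ B1 * E0.factorial := Nat.mul_le_mul_right _ hM2
          _ = E0.factorial * B1 := mul_comm _ _
          _ ≤ _ := le_max_left _ _
      · obtain ⟨p, q, hpq⟩ := hM3
        refine ⟨p, q, fun i => ?_⟩
        have h1 : (M : ℂ) * ((E0.factorial : ℂ) * z i) = (p i : ℂ) + ∑ j, τ i j * (q j : ℂ) :=
          hpq i
        show ((M * E0.factorial : ℕ) : ℂ) * z i = (p i : ℂ) + ∑ j, τ i j * (q j : ℂ)
        rw [← h1]
        push_cast
        ring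
    · right
      exact hF

end Pool.Agent.SZG.H29
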