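import Pool.Agent.SZG.StmtsQ
import Pool.Agent.Helper29_SZG.AS2

/-!
# SZG row AS3: assembly of the theorem for all torsion points and toric ranks
-/

set_option autoImplicit false

namespace Pool.Agent.SZG.H29

open scoped BigOperators
open Pool.Agent.THS

theorem as3 (hSzg : SzgStatement) (hNor : NorStmt) (hHlb : HlbStmt) (hSlc : SlcStmt) :
    As3Stmt := by
  classical
  intro g σ G
  obtain ⟨n, hn⟩ := hSzg g (2 * max σ 0)
  have hσ0 : 0 ≤ max σ 0 := le_max_right _ _
  refine ⟨n, fun l hl hodd => ?_⟩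
  obtain ⟨E1, hE1⟩ := exists_nat_ge (2 * (2 * (l : ℝ) ^ (2 * g) * max σ 0 + 1))
  have hE0pos : 0 < E1 + 1 := Nat.succ_pos _
  have hE0 : 2 * (2 * (l : ℝ) ^ (2 * g) * max σ 0 + 1) ≤ ((E1 + 1 : ℕ) : ℝ) := by
    push_cast
    linarith
  generalize E1 + 1 = E0 at hE0pos hE0
  obtain ⟨E2, hE2⟩ : ∃ E2 : ℕ, ∀ t, t ≤ E0 → G t ≤ E2 :=
    ⟨(Finset.range (E0 + 1)).sup G, fun t ht =>
      Finset.le_sup (f := G) (Finset.mem_range.2 (Nat.lt_succ_of_le ht))⟩
  refine ⟨E2.factorial, Nat.factorial_pos _, fun d => ?_⟩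
  obtain ⟨B1, hB1⟩ := hn l hl hodd d
  obtain ⟨B2, hB2⟩ := hNor g d (Real.exp (max σ 0 * ((l : ℝ) ^ (2 * g) *
    ((2 * g + 1) * d * Real.log 2))))
  refine ⟨max (E2.factorial * B1) B2, ?_⟩
  intro K _ _ hd φ τ hτ z hz x hx0 hx S ev t m hS hH
  have hlog2 : 0 < Real.log 2 := Real.log_pos (by norm_num)
  have hlp : (0 : ℝ) ≤ (l : ℝ) ^ (2 * g) := by positivity
  have hdR : (Module.finrank ℚ K : ℝ) ≤ d := by exact_mod_cast hd
  have hCd : (l : ℝ) ^ (2 * g) * ((2 * g + 1) * Module.finrank ℚ K * Real.log 2) ≤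
      (l : ℝ) ^ (2 * g) * ((2 * g + 1) * d * Real.log 2) := by
    refine mul_le_mul_of_nonneg_left ?_ hlp
    refine mul_le_mul_of_nonneg_right ?_ hlog2.le
    exact mul_le_mul_of_nonneg_left hdR (by positivity)
  have hΛ0 : 0 ≤ ∑ v ∈ S, (ev v : ℝ) / (t v : ℝ) * lN v :=
    Finset.sum_nonneg fun v _ => mul_nonneg (by positivity) (lN_nonneg v)
  have hH' : Real.log (Height.mulHeight (x 0)) ≤
      max σ 0 * ∑ v ∈ S, (ev v : ℝ) / (t v : ℝ) * lN v :=
    hH.trans (mul_le_mul_of_nonneg_right (le_max_left _ _) hΛ0)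
  have hpos : 0 < Height.mulHeight (x 0) := Height.mulHeight_pos _
  rcases le_or_gt (∑ v ∈ S, (ev v : ℝ) / (t v : ℝ) * lN v)
    ((l : ℝ) ^ (2 * g) * ((2 * g + 1) * d * Real.log 2)) with hle | hgt
  · left
    obtain ⟨M, hM1, hM2, hM3⟩ := hB2 K hd φ τ hτ z hz (fun k => x (k, 0, 0))
      (fun k => hx0 _) (fun k => by
        obtain ⟨μ, hμ⟩ := hx (k, 0, 0)
        refine ⟨μ, fun ab => ?_⟩
        rw [hμ ab, gam_one]) (by
        have h1 : Real.log (Height.mulHeight (x 0)) ≤ max σ 0 * ((l : ℝ) ^ (2 * g) *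
            ((2 * g + 1) * d * Real.log 2)) :=
          hH'.trans (mul_le_mul_of_nonneg_left hle hσ0)
        have h2 := (Real.log_le_iff_le_exp hpos).1 h1
        exact h2)
    exact ⟨M, hM1, hM2.trans (le_max_right _ _), hM3⟩
  · have hl0 : 0 < l := hl.pos
    have hhlb := hHlb g K φ τ hτ z l hl0 x hx0 hx S ev (fun v hv => by
      obtain ⟨_, _, _, _, _, _, p, q, hpq, hTC⟩ := hS v hv
      refine ⟨p, q, hpq, ?_⟩
      have := hTC 1
      rwa [one_smul] at this)
    have hsel : ∑ v ∈ S, (ev v : ℝ) * lN v ≤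
        (E0 : ℝ) / 2 * ∑ v ∈ S, (ev v : ℝ) / (t v : ℝ) * lN v := by
      have h1 : (l : ℝ) ^ (2 * g) * (2 * Real.log (Height.mulHeight (x 0)) +
          (2 * g + 1) * Module.finrank ℚ K * Real.log 2) ≤
          (l : ℝ) ^ (2 * g) * (2 * (max σ 0 * ∑ v ∈ S, (ev v : ℝ) / (t v : ℝ) * lN v)) +
          (l : ℝ) ^ (2 * g) * ((2 * g + 1) * d * Real.log 2) := by
        rw [mul_add]
        refine add_le_add (mul_le_mul_of_nonneg_left (by linarith) hlp) hCd
      have h2 : (2 * (l : ℝ) ^ (2 * g) * max σ 0 + 1) *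
          ∑ v ∈ S, (ev v : ℝ) / (t v : ℝ) * lN v ≤
          (E0 : ℝ) / 2 * ∑ v ∈ S, (ev v : ℝ) / (t v : ℝ) * lN v :=
        mul_le_mul_of_nonneg_right (by linarith) hΛ0
      nlinarith [hhlb, h1, h2, hgt]
    have hslc := hSlc (NumberField.FinitePlace K) S ev t lN E0 hE0pos
      (fun v _ => lN_nonneg v) (fun v hv => (hS v hv).2.2.1) hsel
    have hz' : ∃ N : ℕ, 0 < N ∧ InLat τ (fun i => (N : ℂ) * ((E2.factorial : ℂ) * z i)) := by
      obtain ⟨N, hN, p, q, hpq⟩ := hz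
      refine ⟨N, hN, fun i => (E2.factorial : ℤ) * p i, fun i => (E2.factorial : ℤ) * q i,
        fun i => ?_⟩
      have h1 : (N : ℂ) * z i = (p i : ℂ) + ∑ j, τ i j * (q j : ℂ) := hpq i
      show (N : ℂ) * ((E2.factorial : ℂ) * z i) = (((E2.factorial : ℤ) * p i : ℤ) : ℂ) +
        ∑ j, τ i j * (((E2.factorial : ℤ) * q j : ℤ) : ℂ)
      have h2 : (N : ℂ) * ((E2.factorial : ℂ) * z i) =
          (E2.factorial : ℂ) * ((N : ℂ) * z i) := by ring
      rw [h2, h1, mul_add, Finset.mul_sum]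
      push_cast
      congr 1
      refine Finset.sum_congr rfl fun j _ => ?_
      ring
    have happ := hB1 K hd φ τ hτ (fun i => (E2.factorial : ℂ) * z i) hz'
      (fun i => x ((E2.factorial : ℤ) * i.1, i.2.1, i.2.2)) (fun i => hx0 _)
      (fun i => by
        obtain ⟨μ, hμ⟩ := hx ((E2.factorial : ℤ) * i.1, i.2.1, i.2.2)
        refine ⟨μ, fun ab => ?_⟩
        rw [hμ ab, ← gam_mul])
      (S.filter (fun v => t v ≤ E0)) ev (fun v hv => by
        rw [Finset.mem_filter] at hv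
        obtain ⟨hvS, hmE⟩ := hv
        obtain ⟨h2, hev, ht1, hm1, hmG, hCM, p, q, hpq, hTC⟩ := hS v hvS
        refine ⟨h2, hev, fun k => ?_, p, q, hpq, fun u => ?_⟩
        · obtain ⟨w, ht⟩ := Nat.dvd_factorial hm1 (hmG.trans (hE2 _ hmE))
          have h3 := hCM ((w : ℤ) * k)
          have h4 : (m v : ℤ) * ((w : ℤ) * k) = (E2.factorial : ℤ) * k := by
            rw [ht]
            push_cast
            ring
          rw [h4] at h3
          have h5 : (((E2.factorial : ℤ) * (0 : Idx g).1, (0 : Idx g).2.1, (0 : Idx g).2.2) :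
              Idx g) = 0 := by
            ext <;> simp
          simp only [h5]
          exact h3
        · have h3 := hTC u
          have h5 : (((E2.factorial : ℤ) * (0 : Idx g).1, (0 : Idx g).2.1, (0 : Idx g).2.2) :
              Idx g) = 0 := by
            ext <;> simp
          have h6 : (((E2.factorial : ℤ) * (u • ((0, p, q) : Idx g)).1,
              (u • ((0, p, q) : Idx g)).2.1, (u • ((0, p, q) : Idx g)).2.2) : Idx g) =
              u • ((0, p, q) : Idx g) := by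
            ext <;> simp
          simp only [h5, h6]
          exact h3)
      (by
        have h5 : (((E2.factorial : ℤ) * (0 : Idx g).1, (0 : Idx g).2.1, (0 : Idx g).2.2) :
            Idx g) = 0 := by
          ext <;> simp
        simp only [h5]
        calc Real.log (Height.mulHeight (x 0)) ≤
            max σ 0 * ∑ v ∈ S, (ev v : ℝ) / (t v : ℝ) * lN v := hH'
          _ ≤ max σ 0 * (2 * ∑ v ∈ S.filter (fun v => t v ≤ E0), (ev v : ℝ) * lN v) :=
            mul_le_mul_of_nonneg_left hslc hσ0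
          _ = 2 * max σ 0 * ∑ v ∈ S.filter (fun v => t v ≤ E0), (ev v : ℝ) * lN v := by ring)
    rcases happ with ⟨M, hM1, hM2, hM3⟩ | hF
    · left
      refine ⟨M * E2.factorial, Nat.mul_pos hM1 (Nat.factorial_pos _), ?_, ?_⟩
      · calc M * E2.factorial ≤ B1 * E2.factorial := Nat.mul_le_mul_right _ hM2
          _ = E2.factorial * B1 := mul_comm _ _
          _ ≤ _ := le_max_left _ _
      · obtain ⟨p, q, hpq⟩ := hM3
        refine ⟨p, q, fun i => ?_⟩
        have h1 : (M : ℂ) * ((E2.factorial : ℂ) * z i) = (p i : ℂ) + ∑ j, τ i j * (q j : ℂ) :=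
          hpq i
        show ((M * E2.factorial : ℕ) : ℂ) * z i = (p i : ℂ) + ∑ j, τ i j * (q j : ℂ)
        rw [← h1]
        push_cast
        ring
    · right
      exact hF

end Pool.Agent.SZG.H29
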